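import Pool.Agent.Helper58.R3.Stmts
open Classical

/-!
VK: the parts of a piece (project R3, MP_7ef5a1_co).
-/

set_option autoImplicit false

namespace Pool.Agent.Helper58.R3

theorem vk_mem_nb {m : ℕ} (H : SimpleGraph (Fin m)) (F : Finset (Fin m)) (x : Fin m) :
    x ∈ nb H F ↔ x ∉ F ∧ ∃ y ∈ F, H.Adj y x := by
  unfold nb
  rw [Finset.mem_filter]
  exact ⟨fun h => h.2, fun h => ⟨Finset.mem_univ _, h⟩⟩

theorem st_VK (h1 : ST_AV) : ST_VK := by
  intro m H v0 A X L D Φ i a c n hn K Θ P hK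
  have haX : ∀ j, a j ∉ X := fun j => c.c.LX (i j) (a j) (c.aL j)
  have hainj : ∀ j j', a j = a j' → j = j' := by
    intro j j' h
    have h2 : a j ∈ L (i j') := by
      rw [h]
      exact c.aL j'
    exact c.ii (c.c.LL (i j) (i j') (a j) (c.aL j) h2)
  -- first part
  have hnbne : (nb H K).Nonempty := by
    rw [← Finset.card_pos, P.c3]
    norm_num
  have hA : ∀ l, (∀ j, l ≠ i j) → ∀ x ∈ K, Θ x ∉ L l := by
    intro l hl
    refine h1 m H v0 A X L D Φ i a c n hn K Θ l hK P.c3 P.emb ?_ ?_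
    · intro x hx hxl
      obtain ⟨j, hj⟩ := (c.Nv (Θ x)).1 (P.D x hx)
      rw [hj] at hxl
      exact hl j (c.c.LL l (i j) (a j) hxl (c.aL j))
    · obtain ⟨x, hx⟩ := hnbne
      obtain ⟨j, hj⟩ := (c.Nv (Θ x)).1 (P.D x hx)
      refine ⟨x, hx, ?_⟩
      rw [hj]
      exact haX j
  -- second part
  have hB : ∀ j, ∃ x ∈ nb H K, Θ x = a j := by
    have h2 : ((nb H K).image Θ).card = 3 := by
      rw [Finset.card_image_of_injOn, P.c3]
      intro x hx y hy hxy
      exact P.emb.inj x (Finset.mem_union_right _ hx) y (Finset.mem_union_right _ hy) hxy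
    have h3 : (Finset.univ.image a).card = 3 := by
      rw [Finset.card_image_of_injective _ (fun j j' h => hainj j j' h)]
      simp
    have h4 : (nb H K).image Θ ⊆ Finset.univ.image a := by
      intro y hy
      obtain ⟨x, hx, rfl⟩ := Finset.mem_image.1 hy
      obtain ⟨j, hj⟩ := (c.Nv (Θ x)).1 (P.D x hx)
      exact Finset.mem_image.2 ⟨j, Finset.mem_univ _, hj.symm⟩
    have h5 : (nb H K).image Θ = Finset.univ.image a :=
      Finset.eq_of_subset_of_card_le h4 (by rw [h2, h3])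
    intro j
    have h6 : a j ∈ (nb H K).image Θ := by
      rw [h5]
      exact Finset.mem_image.2 ⟨j, Finset.mem_univ _, rfl⟩
    obtain ⟨x, hx, hxj⟩ := Finset.mem_image.1 h6
    exact ⟨x, hx, hxj⟩
  refine ⟨hA, hB, ?_⟩
  intro j hne
  obtain ⟨V, hV⟩ : ∃ V, V = K.filter (fun x => Θ x ∈ L (i j)) := ⟨_, rfl⟩
  rw [← hV] at hne ⊢
  have hVm : ∀ x, x ∈ V ↔ x ∈ K ∧ Θ x ∈ L (i j) := by
    intro x
    rw [hV, Finset.mem_filter]
  have hLne : (L (i j)).Nonempty := ⟨a j, c.aL j⟩
  have hD3 := c.D3 (i j) hLne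
  have hsub : ∀ z ∈ nb H V, z ∈ K ∪ nb H K := by
    intro z hz
    obtain ⟨hzV, y, hy, hyz⟩ := (vk_mem_nb H V z).1 hz
    by_cases hzK : z ∈ K
    · exact Finset.mem_union_left _ hzK
    · exact Finset.mem_union_right _
        ((vk_mem_nb H K z).2 ⟨hzK, y, ((hVm y).1 hy).1, hyz⟩)
  have hND : ∀ z ∈ nb H V, Θ z = a j ∨ (Θ z ∈ D (i j) ∧ Θ z ≠ v0) := by
    intro z hz
    obtain ⟨hzV, y, hy, hyz⟩ := (vk_mem_nb H V z).1 hz
    have hyK := ((hVm y).1 hy).1
    have hyL := ((hVm y).1 hy).2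
    have hzU := hsub z hz
    have hadj : H.Adj (Θ y) (Θ z) :=
      P.emb.hom y (Finset.mem_union_left _ hyK) z hzU hyz
    have hzLD := c.c.nbL (i j) (Θ y) hyL (Θ z) hadj
    rcases Finset.mem_union.1 hzU with hzK | hzN
    · right
      refine ⟨?_, P.nv z hzK⟩
      rcases hzLD with h | h
      · exact absurd ((hVm z).2 ⟨hzK, h⟩) hzV
      · exact h
    · left
      obtain ⟨j', hj'⟩ := (c.Nv (Θ z)).1 (P.D z hzN)
      rcases hzLD with h | h
      · rw [hj'] at h
        have h3 := c.ii (c.c.LL (i j') (i j) (a j') (c.aL j') h)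
        rw [hj', h3]
      · exfalso
        have h3 := c.c.DX (i j) _ h
        rw [hj'] at h3
        exact haX j' h3
  -- the other index
  obtain ⟨j', hj'⟩ : ∃ j' : Fin 3, j' ≠ j := exists_ne j
  obtain ⟨e, he, hej⟩ := hB j'
  have heK : e ∉ K := ((vk_mem_nb H K e).1 he).1
  have heN : e ∉ nb H V := by
    intro h
    rcases hND e h with h3 | h3
    · rw [hej] at h3
      exact hj' (hainj _ _ h3)
    · have h4 := c.c.DX (i j) _ h3.1
      rw [hej] at h4
      exact haX j' h4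
  have hle : (nb H V).card ≤ 3 := by
    have h2 : ((nb H V).image Θ).card = (nb H V).card := by
      rw [Finset.card_image_of_injOn]
      intro x hx y hy hxy
      exact P.emb.inj x (hsub x hx) y (hsub y hy) hxy
    have h3 : (nb H V).image Θ ⊆ insert (a j) ((D (i j)).erase v0) := by
      intro y hy
      obtain ⟨x, hx, rfl⟩ := Finset.mem_image.1 hy
      rcases hND x hx with h4 | h4
      · rw [h4]
        exact Finset.mem_insert_self _ _
      · exact Finset.mem_insert_of_mem (Finset.mem_erase.2 ⟨h4.2, h4.1⟩)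
    have h4 := Finset.card_le_card h3
    have h5 : (insert (a j) ((D (i j)).erase v0)).card ≤ ((D (i j)).erase v0).card + 1 :=
      Finset.card_insert_le _ _
    rw [Finset.card_erase_of_mem (c.vD j), hD3] at h5
    omega
  have hge : 3 ≤ (nb H V).card := by
    by_contra hlt
    have h2 := c.c.k3 V hne (by omega) e
    rcases h2 with h3 | h3
    · exact heK ((hVm e).1 h3).1
    · exact heN h3
  refine ⟨⟨hne, le_antisymm hle hge, ?_, ?_, hND⟩, ?_⟩
  · have hs2 : ∀ x ∈ V ∪ nb H V, x ∈ K ∪ nb H K := by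
      intro x hx
      rcases Finset.mem_union.1 hx with h | h
      · exact Finset.mem_union_left _ ((hVm x).1 h).1
      · exact hsub x h
    exact ⟨fun x hx y hy hxy => P.emb.inj x (hs2 x hx) y (hs2 y hy) hxy,
      fun x hx y hy hxy => P.emb.hom x (hs2 x hx) y (hs2 y hy) hxy⟩
  · intro x hx
    refine ⟨((hVm x).1 hx).2, fun h => ?_⟩
    obtain ⟨e', he', hej'⟩ := hB j
    have h3 : x = e' := P.emb.inj x (Finset.mem_union_left _ ((hVm x).1 hx).1) e'
      (Finset.mem_union_right _ he') (by rw [h, hej'])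
    have h4 : e' ∉ K := ((vk_mem_nb H K e').1 he').1
    rw [← h3] at h4
    exact h4 ((hVm x).1 hx).1
  · have hVK : V ⊆ K := fun x hx => ((hVm x).1 hx).1
    refine Finset.card_lt_card (Finset.ssubset_iff_subset_ne.2 ⟨hVK, fun h => ?_⟩)
    apply heN
    rw [h]
    exact he

end Pool.Agent.Helper58.R3
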